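import Mathlib
import Pool.Agent.Lib.helper4.Recon

namespace Pool.Agent.Results.MP_fb0e57_co.Girth

open Pool.Agent.Lib.Recon

theorem result (V : Type) [Finite V] (G : SimpleGraph V)
    (h : ∃ (M : {M : Set V // MD G M}) (c : (R G).Walk M M), c.IsCycle) :
    ∃ (M : {M : Set V // MD G M}) (c : (R G).Walk M M), c.IsCycle ∧ c.length ≤ 5 := by
  obtain ⟨M, p, hp⟩ := h
  rcases isEmpty_or_nonempty V with e | e
  · exact absurd (Subsingleton.elim _ _) (p.adj_snd hp.not_nil).ne
  · rcases star_or_short G with ⟨c, hc⟩ | h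
    exacts [absurd hp (star_acyclic hc p), h]

end Pool.Agent.Results.MP_fb0e57_co.Girth
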